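import Pool.Agent.Helper36.RI.Goals

/-!
# Project RF, existence part, packet LEX: local existence of framed Ricci flows (assembly)
-/

set_option autoImplicit false

namespace Pool.Agent.Helper69.RI

open Set Filter Topology Pool.Agent.Helper36.RS Pool.Agent.Helper73.RF Pool.Agent.Helper36.RI
open Pool.Agent.Helper47.RF hiding eps
open scoped ContDiff

/-! ### Locality -/

theorem E_congr {f g : HH → ℝ} (h : ∀ x ≠ 0, f x = g x) (i : Fin 3) :
    ∀ x ≠ 0, E i f x = E i g x := by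
  intro x hx
  have h1 : f =ᶠ[𝓝 x] g := by
    filter_upwards [isOpen_compl_singleton.mem_nhds hx] with y hy
    exact h y hy
  unfold E
  rw [h1.fderiv_eq]

theorem Ew_congr {f g : HH → ℝ} (h : ∀ x ≠ 0, f x = g x) (w : List (Fin 3)) :
    ∀ x ≠ 0, Ew w f x = Ew w g x := by
  induction w with
  | nil => exact h
  | cons i w ih => exact E_congr ih i

theorem Sm_congr {f g : HH → ℝ} (h : ∀ x ≠ 0, g x = f x) (hf : Sm f) : Sm g := by
  refine ⟨hf.cd.congr fun x hx => h x hx, fun r x hr => ?_⟩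
  by_cases hx : x = 0
  · rw [hx, smul_zero]
  · rw [h x hx, h _ (smul_ne_zero hr.ne' hx)]
    exact hf.hom r x hr

theorem SmFam_congr {I : Set ℝ} {f g : ℝ → HH → ℝ} (h : ∀ t ∈ I, ∀ x ≠ 0, g t x = f t x)
    (hf : SmFam I f) : SmFam I g :=
  ⟨fun t ht => Sm_congr (h t ht) (hf.sm t ht), fun w => (hf.cont w).congr fun p hp =>
    Ew_congr (h p.1 hp.1) w p.2 hp.2⟩

theorem SmFam1_congr {I : Set ℝ} {f g f' g' : ℝ → HH → ℝ} (h : ∀ t ∈ I, ∀ x ≠ 0, g t x = f t x)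
    (h' : ∀ t ∈ I, ∀ x ≠ 0, g' t x = f' t x) (hf : SmFam1 I f f') : SmFam1 I g g' := by
  refine ⟨SmFam_congr h hf.fam, SmFam_congr h' hf.fam', fun w x hx t ht => ?_⟩
  have h1 := hf.der w x hx t ht
  rw [Ew_congr (h' t ht) w x hx]
  exact h1.congr (fun s hs => Ew_congr (h s hs) w x hx) (Ew_congr (h t ht) w x hx)

/-- equality away from the quaternion `0` -/
def Rl (f g : XS) : Prop := ∀ x ≠ 0, f.1 x = g.1 x

theorem Rl.add {f g f' g' : XS} (h : Rl f g) (h' : Rl f' g') : Rl (f + f') (g + g') :=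
  fun x hx => by
    change f.1 x + f'.1 x = g.1 x + g'.1 x
    rw [h x hx, h' x hx]

theorem Rl.sub {f g f' g' : XS} (h : Rl f g) (h' : Rl f' g') : Rl (f - f') (g - g') :=
  fun x hx => by
    change f.1 x - f'.1 x = g.1 x - g'.1 x
    rw [h x hx, h' x hx]

theorem Rl.mul {f g f' g' : XS} (h : Rl f g) (h' : Rl f' g') : Rl (f * f') (g * g') :=
  fun x hx => by
    change f.1 x * f'.1 x = g.1 x * g'.1 x
    rw [h x hx, h' x hx]

theorem Rl.smul (c : ℝ) {f g : XS} (h : Rl f g) : Rl (c • f) (c • g) :=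
  fun x hx => by
    change c * f.1 x = c * g.1 x
    rw [h x hx]

theorem sum_val {ι : Type} (s : Finset ι) (f : ι → XS) (x : HH) :
    (∑ i ∈ s, f i : XS).1 x = ∑ i ∈ s, (f i).1 x := by
  classical
  induction s using Finset.induction_on with
  | empty => rfl
  | insert a s ha ih =>
    rw [Finset.sum_insert ha, Finset.sum_insert ha, ← ih]
    rfl

theorem Rl.sum {ι : Type} (s : Finset ι) {f g : ι → XS} (h : ∀ i, Rl (f i) (g i)) :
    Rl (∑ i ∈ s, f i) (∑ i ∈ s, g i) := fun x hx => by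
  rw [sum_val, sum_val]
  exact Finset.sum_congr rfl fun i _ => h i x hx

theorem Rl.Ed (i : Fin 3) {f g : XS} (h : Rl f g) : Rl (Ed i f) (Ed i g) :=
  fun x hx => E_congr h i x hx

section frame

variable {A A' θ θ' : Fin 3 → Fin 3 → XS} (hA : ∀ a i, Rl (A a i) (A' a i))
  (hθ : ∀ i a, Rl (θ i a) (θ' i a))

include hA in
theorem Rl.Fd (a : Fin 3) {f g : XS} (h : Rl f g) :
    Rl (FR.Fd Pool.Agent.Helper36.RS.Ed A a f) (FR.Fd Pool.Agent.Helper36.RS.Ed A' a g) :=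
  Rl.sum _ fun i => (hA a i).mul (h.Ed i)

include hA hθ in
theorem Rl.C (a b c : Fin 3) : Rl (FR.C Pool.Agent.Helper36.RS.Ed A θ a b c)
    (FR.C Pool.Agent.Helper36.RS.Ed A' θ' a b c) := by
  unfold FR.C
  refine Rl.sum _ fun j => Rl.mul (Rl.add (Rl.sub ?_ ?_) ?_) (hθ j c)
  · exact Rl.Fd hA a (hA b j)
  · exact Rl.Fd hA b (hA a j)
  · exact Rl.smul _ (Rl.sum _ fun i => Rl.sum _ fun k => Rl.smul _ ((hA a i).mul (hA b k)))

include hA hθ in
theorem Rl.Gam (a b c : Fin 3) : Rl (FR.Gam Pool.Agent.Helper36.RS.Ed A θ a b c)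
    (FR.Gam Pool.Agent.Helper36.RS.Ed A' θ' a b c) := by
  unfold FR.Gam
  exact Rl.smul _ (((Rl.C hA hθ a b c).sub (Rl.C hA hθ b c a)).add (Rl.C hA hθ c a b))

include hA hθ in
theorem Rl.om (a k : Fin 3) : Rl (FR.om Pool.Agent.Helper36.RS.Ed A θ a k)
    (FR.om Pool.Agent.Helper36.RS.Ed A' θ' a k) := by
  unfold FR.om
  exact Rl.smul _ (Rl.sum _ fun b => Rl.sum _ fun c => Rl.smul _ (Rl.Gam hA hθ a b c))

include hA hθ in
theorem Rl.Om (c d k : Fin 3) : Rl (FR.Om Pool.Agent.Helper36.RS.Ed A θ c d k)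
    (FR.Om Pool.Agent.Helper36.RS.Ed A' θ' c d k) := by
  unfold FR.Om
  refine Rl.sub (Rl.add (Rl.sub ?_ ?_) ?_) ?_
  · exact Rl.Fd hA c (Rl.om hA hθ d k)
  · exact Rl.Fd hA d (Rl.om hA hθ c k)
  · exact Rl.sum _ fun l => Rl.sum _ fun m => Rl.smul _ ((Rl.om hA hθ c l).mul (Rl.om hA hθ d m))
  · exact Rl.sum _ fun e => (Rl.C hA hθ c d e).mul (Rl.om hA hθ e k)

include hA hθ in
theorem Rl.N (l k : Fin 3) : Rl (FR.N Pool.Agent.Helper36.RS.Ed A θ l k)
    (FR.N Pool.Agent.Helper36.RS.Ed A' θ' l k) := by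
  unfold FR.N
  exact Rl.smul _ (Rl.sum _ fun c => Rl.sum _ fun d => Rl.smul _ (Rl.Om hA hθ c d k))

end frame

/-- a matrix field from its entries, `1` at the quaternion `0` -/
noncomputable def mk (A : Fin 3 → Fin 3 → XS) : MF := fun x =>
  open Classical in if x = 0 then 1 else Matrix.of fun a i => (A a i).1 x

theorem mk_apply (A : Fin 3 → Fin 3 → XS) {x : HH} (hx : x ≠ 0) (a i : Fin 3) :
    mk A x a i = (A a i).1 x := by
  simp [mk, hx]

theorem mk_Sm (A : Fin 3 → Fin 3 → XS) (a i : Fin 3) : Sm (fun x => mk A x a i) :=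
  Sm_congr (fun _ hx => mk_apply A hx a i) (A a i).2

theorem mk_inv {A θ : Fin 3 → Fin 3 → XS} (h : Inv A θ) (x : HH) : mk A x * mk θ x = 1 := by
  by_cases hx : x = 0
  · simp [mk, hx]
  · ext a c
    rw [Matrix.mul_apply, Matrix.one_apply, ← h x hx a c]
    exact Finset.sum_congr rfl fun i _ => by rw [mk_apply A hx, mk_apply θ hx]

theorem mk_Frm {A θ : Fin 3 → Fin 3 → XS} (h : Inv A θ) : Frm (mk A) (mk θ) :=
  ⟨mk_inv h, mk_Sm A, mk_Sm θ⟩

/-- the Ricci tensor of the frame in terms of `P = N` -/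
theorem ric_eq (hR : R_RIC) {A θ P : Fin 3 → Fin 3 → XS} (h : Inv A θ)
    (hP : ∀ a b, ∀ x ≠ 0, (P a b).1 x = (FR.N Ed A θ a b).1 x) {x : HH} (hx : x ≠ 0)
    (a b : Fin 3) : RicF (mk A) (mk θ) x a b = (Sf P a b).1 x := by
  rw [hR (mk A) (mk θ) (mk_Frm h) x hx a b]
  have hN : ∀ l k, (FR.N Ed (fun a i => (⟨fun y => mk A y a i, (mk_Frm h).smA a i⟩ : XS))
      (fun i a => (⟨fun y => mk θ y i a, (mk_Frm h).smt i a⟩ : XS)) l k).1 x = (P l k).1 x := by
    intro l k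
    rw [hP l k x hx]
    exact Rl.N (fun a i y hy => mk_apply A hy a i) (fun i a y hy => mk_apply θ hy i a) l k x hx
  unfold FR.Ricf Sf trP
  by_cases hab : a = b
  · simp only [hab, if_true]
    change (∑ i, _ : XS).1 x - _ = (∑ c, P c c : XS).1 x - (P b b).1 x
    rw [sum_val, sum_val, hN b b]
    congr 1
    exact Finset.sum_congr rfl fun i _ => hN i i
  · simp only [hab, if_false]
    change (0 : XS).1 x - _ = (0 : XS).1 x - (P a b).1 x
    rw [hN a b]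

/-- Packet LEX. -/
theorem lex (hCV : R_CV) (hFRL : R_FRL) (hIVV : R_IVV) (hBIZ : R_BIZ) (hCQ : R_CQ)
    (hRIC : R_RIC) : LocExStmt := by
  intro A0 θ0 h0
  let a0 : Fin 3 → Fin 3 → XS := fun a i => ⟨fun x => A0 x a i, h0.smA a i⟩
  let t0 : Fin 3 → Fin 3 → XS := fun i a => ⟨fun x => θ0 x i a, h0.smt i a⟩
  have hinv0 : Inv a0 t0 := by
    intro x _ a c
    have h1 := congrFun (congrFun (h0.inv x) a) c
    rw [Matrix.mul_apply, Matrix.one_apply] at h1
    exact h1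
  let P0 : Fin 3 → Fin 3 → XS := fun a b => FR.N Ed a0 t0 (min a b) (max a b)
  have hP0 : ∀ a b, ∀ x ≠ 0, (P0 a b).1 x = (FR.N Ed a0 t0 a b).1 x := by
    intro a b x hx
    change (FR.N Ed a0 t0 (min a b) (max a b)).1 x = _
    rcases le_total a b with h | h
    · rw [min_eq_left h, max_eq_right h]
    · rw [min_eq_right h, max_eq_left h]
      exact (hBIZ a0 t0 hinv0).1 b a x hx
  obtain ⟨τ, hτ, A, θ, P, hFS, hA0, hθ0, hPP0⟩ := hFRL a0 t0 P0 hinv0 fun a b => by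
    change FR.N Ed a0 t0 (min a b) (max a b) = FR.N Ed a0 t0 (min b a) (max b a)
    rw [min_comm, max_comm]
  have hI : ∀ t ∈ Icc 0 τ, Inv (A t) (θ t) := hIVV τ A θ P hFS (by rw [hA0, hθ0]; exact hinv0)
  have hN : ∀ t ∈ Icc 0 τ, ∀ a b, ∀ x ≠ 0, (P t a b).1 x = (FR.N Ed (A t) (θ t) a b).1 x :=
    hCQ τ A θ P hτ hFS hI (by rw [hA0, hθ0, hPP0]; exact hP0)
  have hric : ∀ t ∈ Icc 0 τ, ∀ x ≠ 0, ∀ a b,
      RicF (mk (A t)) (mk (θ t)) x a b = (Sf (P t) a b).1 x := fun t ht x hx a b =>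
    ric_eq hRIC (hI t ht) (hN t ht) hx a b
  refine ⟨τ, hτ, fun t => mk (A t), fun t => mk (θ t), ⟨fun t ht x => mk_inv (hI t ht) x,
    fun a i => ?_, fun i a => ?_⟩, fun x hx => ⟨?_, ?_⟩⟩
  · refine SmFam1_congr (fun t _ x hx => mk_apply (A t) hx a i) (fun t ht x hx => ?_)
      (hCV τ _ _ (hFS.dA a i))
    change _ = (∑ b, Sf (P t) a b * A t b i : XS).1 x
    rw [sum_val]
    exact Finset.sum_congr rfl fun b _ => by
      rw [hric t ht x hx a b, mk_apply (A t) hx]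
      rfl
  · refine SmFam1_congr (fun t _ x hx => mk_apply (θ t) hx i a) (fun t ht x hx => ?_)
      (hCV τ _ _ (hFS.dt i a))
    change _ = -(∑ b, θ t i b * Sf (P t) b a : XS).1 x
    rw [sum_val]
    congr 1
    exact Finset.sum_congr rfl fun b _ => by
      rw [hric t ht x hx b a, mk_apply (θ t) hx]
      rfl
  · ext a i
    change mk (A 0) x a i = _
    rw [mk_apply (A 0) hx, hA0]
  · ext i a
    change mk (θ 0) x i a = _
    rw [mk_apply (θ 0) hx, hθ0]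

end Pool.Agent.Helper69.RI
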